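import Pool.Agent.Helper1.T1.Goals

/-!
PROJECT T1, packet CNTZ: the number of zeros on the rational curve.
-/

set_option autoImplicit false

noncomputable section

namespace Pool.Agent.Helper15.T1.CNTZ

open Pool.Agent.Helper1.T1

variable {F : Type} [Field F]

/-- one monomial on the rational curve, made polynomial -/
def mon (k e a b : ℕ) : Polynomial F :=
  Polynomial.X ^ (k * e - ((k - 1) * a + k * b)) *
    ((Polynomial.X ^ (2 * (k - 1)) + 1) ^ a * (Polynomial.X ^ (2 * k) + 1) ^ b)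

/-- the polynomial `ζ ^ (k e) p(ζ^(k-1) + ζ^(1-k), ζ^k + ζ^(-k))` -/
def PP (k e : ℕ) (p : MvPolynomial (Fin 2) F) : Polynomial F :=
  ∑ s ∈ p.support, Polynomial.C (MvPolynomial.coeff s p) * mon k e (s 0) (s 1)

theorem wt_le {k e a b : ℕ} (h : a + b ≤ e) : (k - 1) * a + k * b ≤ k * e := by
  have h1 : (k - 1) * a ≤ k * a := Nat.mul_le_mul_right _ (Nat.sub_le _ _)
  have h2 : k * (a + b) ≤ k * e := Nat.mul_le_mul_left _ h
  rw [Nat.mul_add] at h2
  omega

theorem natDegree_mon {k e a b : ℕ} (h : a + b ≤ e) :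
    (mon k e a b : Polynomial F).natDegree ≤ 2 * (k * e) := by
  have h1 := wt_le (k := k) h
  unfold mon
  have hA : ((Polynomial.X ^ (2 * (k - 1)) + 1 : Polynomial F) ^ a).natDegree ≤
      2 * (k - 1) * a := by
    refine (Polynomial.natDegree_pow_le).trans ?_
    rw [Nat.mul_comm]
    refine Nat.mul_le_mul_right _ ?_
    refine (Polynomial.natDegree_add_le _ _).trans ?_
    rw [Polynomial.natDegree_one]
    exact max_le (Polynomial.natDegree_X_pow_le _) (Nat.zero_le _)
  have hB : ((Polynomial.X ^ (2 * k) + 1 : Polynomial F) ^ b).natDegree ≤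
      2 * k * b := by
    refine (Polynomial.natDegree_pow_le).trans ?_
    rw [Nat.mul_comm]
    refine Nat.mul_le_mul_right _ ?_
    refine (Polynomial.natDegree_add_le _ _).trans ?_
    rw [Polynomial.natDegree_one]
    exact max_le (Polynomial.natDegree_X_pow_le _) (Nat.zero_le _)
  refine (Polynomial.natDegree_mul_le).trans ?_
  have hX : (Polynomial.X ^ (k * e - ((k - 1) * a + k * b)) : Polynomial F).natDegree ≤
      k * e - ((k - 1) * a + k * b) := Polynomial.natDegree_X_pow_le _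
  have hAB := (Polynomial.natDegree_mul_le
    (p := (Polynomial.X ^ (2 * (k - 1)) + 1 : Polynomial F) ^ a)
    (q := (Polynomial.X ^ (2 * k) + 1 : Polynomial F) ^ b))
  have e1 : 2 * (k - 1) * a = 2 * ((k - 1) * a) := by ring
  have e2 : 2 * k * b = 2 * (k * b) := by ring
  rw [e1] at hA
  rw [e2] at hB
  omega

theorem natDegree_PP {k e : ℕ} {p : MvPolynomial (Fin 2) F} (hp : IsNF k e p) :
    (PP k e p).natDegree ≤ 2 * (k * e) := by
  unfold PP
  refine Polynomial.natDegree_sum_le_of_forall_le _ _ ?_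
  intro s hs
  refine (Polynomial.natDegree_C_mul_le _ _).trans ?_
  exact natDegree_mon (hp s hs).2

theorem coeff_mon_lt {k e a b n : ℕ} (h : n < k * e - ((k - 1) * a + k * b)) :
    (mon k e a b : Polynomial F).coeff n = 0 := by
  unfold mon
  rw [Polynomial.coeff_X_pow_mul']
  rw [if_neg (by omega)]

theorem coeff_mon_eq {k e a b : ℕ} (hk : 2 ≤ k) :
    (mon k e a b : Polynomial F).coeff (k * e - ((k - 1) * a + k * b)) = 1 := by
  unfold mon
  rw [Polynomial.coeff_X_pow_mul']
  rw [if_pos le_rfl, Nat.sub_self, Polynomial.coeff_zero_eq_eval_zero]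
  have h1 : 2 * (k - 1) ≠ 0 := by omega
  have h2 : 2 * k ≠ 0 := by omega
  simp [h1, h2]

theorem wt_inj {k a b a' b' : ℕ} (hk : 1 ≤ k) (ha : a < k) (ha' : a' < k)
    (h : (k - 1) * a + k * b = (k - 1) * a' + k * b') : a = a' ∧ b = b' := by
  obtain ⟨j, rfl⟩ : ∃ j, k = j + 1 := ⟨k - 1, by omega⟩
  simp only [Nat.add_sub_cancel] at h
  have hz : ((j : ℤ) * a + (j + 1) * b) = (j : ℤ) * a' + (j + 1) * b' := by exact_mod_cast h
  have hd : ((j : ℤ) + 1) ∣ (a : ℤ) - a' := ⟨(a : ℤ) - a' + (b - b'), by linear_combination (-1 : ℤ) * hz⟩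
  have h0 : (a : ℤ) - a' = 0 := by
    apply Int.eq_zero_of_abs_lt_dvd hd
    rw [abs_lt]
    constructor <;> omega
  have haa : a = a' := by omega
  subst haa
  refine ⟨rfl, ?_⟩
  have h3 : (j + 1) * b = (j + 1) * b' := by omega
  exact Nat.eq_of_mul_eq_mul_left (by omega) h3

theorem PP_ne_zero {k e : ℕ} (hk : 2 ≤ k) {p : MvPolynomial (Fin 2) F} (hp : IsNF k e p)
    (h0 : p ≠ 0) : PP k e p ≠ 0 := by
  have hne : p.support.Nonempty := by
    rw [Finset.nonempty_iff_ne_empty]
    intro h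
    exact h0 (MvPolynomial.support_eq_empty.1 h)
  obtain ⟨s, hs, hmax⟩ := Finset.exists_max_image p.support
    (fun s => (k - 1) * s 0 + k * s 1) hne
  intro hP
  have hc : (PP k e p).coeff (k * e - ((k - 1) * s 0 + k * s 1)) = MvPolynomial.coeff s p := by
    unfold PP
    rw [Polynomial.finsetSum_coeff, Finset.sum_eq_single s]
    · rw [Polynomial.coeff_C_mul, coeff_mon_eq hk, mul_one]
    · intro t ht hts
      rw [Polynomial.coeff_C_mul, coeff_mon_lt, mul_zero]
      have h1 := hmax t ht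
      have h2 := wt_le (k := k) (hp t ht).2
      have h3 := wt_le (k := k) (hp s hs).2
      have h4 : (k - 1) * t 0 + k * t 1 ≠ (k - 1) * s 0 + k * s 1 := by
        intro h5
        obtain ⟨h6, h7⟩ := wt_inj (by omega) (hp t ht).1 (hp s hs).1 h5
        apply hts
        ext i
        fin_cases i
        · exact h6
        · exact h7
      omega
    · intro h
      exact absurd hs h
  rw [hP, Polynomial.coeff_zero] at hc
  exact (MvPolynomial.mem_support_iff.1 hs) hc.symm

/-- the value of a monomial on a branch -/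
theorem aeval_mon {k e a b : ℕ} (h : a + b ≤ e) (v w : PowerSeries F) (hvw : v * w = 1) :
    Polynomial.aeval v (mon k e a b : Polynomial F) =
      v ^ (k * e) * ((v ^ (k - 1) + w ^ (k - 1)) ^ a * (v ^ k + w ^ k) ^ b) := by
  have h1 := wt_le (k := k) h
  have e1 : v ^ (2 * (k - 1)) + 1 = v ^ (k - 1) * (v ^ (k - 1) + w ^ (k - 1)) := by
    have h2 : v ^ (k - 1) * w ^ (k - 1) = 1 := by rw [← mul_pow, hvw, one_pow]
    rw [mul_add, h2, two_mul, pow_add]
  have e2 : v ^ (2 * k) + 1 = v ^ k * (v ^ k + w ^ k) := by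
    have h2 : v ^ k * w ^ k = 1 := by rw [← mul_pow, hvw, one_pow]
    rw [mul_add, h2, two_mul, pow_add]
  have e3 : v ^ (k * e) = v ^ (k * e - ((k - 1) * a + k * b)) *
      ((v ^ (k - 1)) ^ a * (v ^ k) ^ b) := by
    rw [← pow_mul, ← pow_mul, ← pow_add, ← pow_add]
    congr 1
    omega
  unfold mon
  rw [map_mul, map_mul, map_pow, map_pow, map_pow, map_add, map_add, map_pow, map_pow, map_one,
    Polynomial.aeval_X, e1, e2, e3, mul_pow, mul_pow]
  ring

/-- the value on a branch -/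
theorem lev_eq {k e : ℕ} {p : MvPolynomial (Fin 2) F} (hp : IsNF k e p)
    (v w : PowerSeries F) (hvw : v * w = 1) :
    v ^ (k * e) * MvPolynomial.aeval ![v ^ (k - 1) + w ^ (k - 1), v ^ k + w ^ k] p =
      Polynomial.aeval v (PP k e p) := by
  rw [MvPolynomial.aeval_def, MvPolynomial.eval₂_eq', Finset.mul_sum]
  unfold PP
  rw [map_sum]
  apply Finset.sum_congr rfl
  intro s hs
  rw [map_mul, Polynomial.aeval_C, aeval_mon (hp s hs).2 v w hvw, Fin.prod_univ_two]
  simp only [Matrix.cons_val_zero, Matrix.cons_val_one]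
  ring

/-- the order at a root -/
theorem order_root {P : Polynomial F} (hP : P ≠ 0) (ξ : Fˣ) (r : PowerSeries F)
    (h0 : PowerSeries.constantCoeff r = 1) (h1 : PowerSeries.coeff 1 r ≠ 0) (A : ℕ)
    (hA : PowerSeries.X ^ A ∣ Polynomial.aeval (PowerSeries.C (ξ : F) * r) P) :
    (Polynomial.X - Polynomial.C (ξ : F)) ^ A ∣ P := by
  obtain ⟨Q, hQ, hQ0⟩ := Polynomial.exists_eq_pow_rootMultiplicity_mul_and_not_dvd P hP (ξ : F)
  set n := Polynomial.rootMultiplicity (ξ : F) P with hn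
  have hQr : Q.eval (ξ : F) ≠ 0 := by
    intro h
    exact hQ0 (Polynomial.dvd_iff_isRoot.2 h)
  set v : PowerSeries F := PowerSeries.C (ξ : F) * r with hv
  -- `v - ξ` is `X` times a unit
  have hvx : PowerSeries.constantCoeff (v - PowerSeries.C (ξ : F)) = 0 := by
    rw [hv, map_sub, map_mul, h0]
    simp
  obtain ⟨u, hu⟩ := PowerSeries.X_dvd_iff.2 hvx
  have hu0 : PowerSeries.constantCoeff u ≠ 0 := by
    have h2 : PowerSeries.coeff 1 (v - PowerSeries.C (ξ : F)) = PowerSeries.constantCoeff u := by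
      rw [hu]
      have := PowerSeries.coeff_succ_X_mul 0 u
      rw [zero_add] at this
      rw [this, PowerSeries.coeff_zero_eq_constantCoeff_apply]
    rw [← h2, hv, map_sub, PowerSeries.coeff_C_mul, PowerSeries.coeff_C, if_neg one_ne_zero,
      sub_zero]
    exact mul_ne_zero ξ.ne_zero h1
  have huu : IsUnit u := PowerSeries.isUnit_iff_constantCoeff.2 (isUnit_iff_ne_zero.2 hu0)
  have hQv : IsUnit (Polynomial.aeval v Q) := by
    rw [PowerSeries.isUnit_iff_constantCoeff, isUnit_iff_ne_zero]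
    have h3 : PowerSeries.constantCoeff (Polynomial.aeval v Q) = Q.eval (ξ : F) := by
      have h4 := Polynomial.hom_eval₂ Q (algebraMap F (PowerSeries F))
        (PowerSeries.constantCoeff (R := F)) v
      rw [← Polynomial.aeval_def] at h4
      rw [h4]
      have h5 : (PowerSeries.constantCoeff (R := F)).comp (algebraMap F (PowerSeries F)) =
          RingHom.id F := by
        ext x
        simp
      rw [h5, Polynomial.eval₂_id, hv, map_mul, h0]
      simp
    rw [h3]
    exact hQr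
  have hPv : Polynomial.aeval v P = PowerSeries.X ^ n * (u ^ n * Polynomial.aeval v Q) := by
    conv_lhs => rw [hQ]
    rw [map_mul, map_pow, map_sub, Polynomial.aeval_X, Polynomial.aeval_C]
    have h6 : (algebraMap F (PowerSeries F)) (ξ : F) = PowerSeries.C (ξ : F) := rfl
    rw [h6, hu, mul_pow, mul_assoc]
  have hun : IsUnit (u ^ n * Polynomial.aeval v Q) := (huu.pow n).mul hQv
  rw [hPv] at hA
  have hle : A ≤ n := by
    by_contra hlt
    push Not at hlt
    have h7 : PowerSeries.X ^ (n + 1) ∣ PowerSeries.X ^ n * (u ^ n * Polynomial.aeval v Q) :=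
      (pow_dvd_pow _ hlt).trans hA
    rw [pow_succ] at h7
    have h8 : (PowerSeries.X : PowerSeries F) ∣ u ^ n * Polynomial.aeval v Q :=
      (mul_dvd_mul_iff_left (pow_ne_zero n PowerSeries.X_ne_zero)).1 h7
    rw [PowerSeries.X_dvd_iff] at h8
    exact (isUnit_iff_ne_zero.1 (PowerSeries.isUnit_iff_constantCoeff.1 hun)) h8
  rw [hQ]
  exact (pow_dvd_pow _ hle).mul_right _

/-- a vanishing jet gives a multiple root -/
theorem root_of_lev {k e : ℕ} (hk : 2 ≤ k) {p : MvPolynomial (Fin 2) F} (hp : IsNF k e p)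
    (h0 : p ≠ 0) (ξ : Fˣ) (r : PowerSeries F) (hr0 : PowerSeries.constantCoeff r = 1)
    (hr1 : PowerSeries.coeff 1 r ≠ 0) (A : ℕ)
    (hA : ∀ n : ℕ, n < A → PowerSeries.coeff n (lev k ξ r p) = 0) :
    (Polynomial.X - Polynomial.C (ξ : F)) ^ A ∣ PP k e p ∧
      (Polynomial.X - Polynomial.C ((ξ⁻¹ : Fˣ) : F)) ^ A ∣ PP k e p := by
  have hP := PP_ne_zero hk hp h0
  have hX : PowerSeries.X ^ A ∣ lev k ξ r p := PowerSeries.X_pow_dvd_iff.2 hA
  set v : PowerSeries F := PowerSeries.C (ξ : F) * r with hv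
  have hv0 : PowerSeries.constantCoeff v = (ξ : F) := by
    rw [hv, map_mul, hr0]; simp
  have hv1 : PowerSeries.constantCoeff v ≠ 0 := by rw [hv0]; exact ξ.ne_zero
  have hvw : v * v⁻¹ = 1 := PowerSeries.mul_inv_cancel v hv1
  have hwv : v⁻¹ * v = 1 := PowerSeries.inv_mul_cancel v hv1
  have hl : lev k ξ r p = MvPolynomial.aeval ![v ^ (k - 1) + (v⁻¹) ^ (k - 1), v ^ k + (v⁻¹) ^ k] p :=
    rfl
  constructor
  · apply order_root hP ξ r hr0 hr1 A
    rw [← hv, ← lev_eq hp v v⁻¹ hvw, ← hl]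
    exact hX.mul_left _
  · -- the inverse
    have hrr : r * r⁻¹ = 1 := PowerSeries.mul_inv_cancel r (by rw [hr0]; exact one_ne_zero)
    have hs0 : PowerSeries.constantCoeff r⁻¹ = 1 := by
      have h1 := congrArg (PowerSeries.constantCoeff (R := F)) hrr
      rw [map_mul, hr0, one_mul, map_one] at h1
      exact h1
    have hs1 : PowerSeries.coeff 1 r⁻¹ ≠ 0 := by
      intro h1
      have h2 := congrArg (PowerSeries.coeff (R := F) 1) hrr
      rw [PowerSeries.coeff_mul, Finset.Nat.sum_antidiagonal_eq_sum_range_succ_mk] at h2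
      simp only [Finset.sum_range_succ, Finset.sum_range_zero, zero_add, Nat.sub_zero,
        Nat.sub_self] at h2
      rw [h1, PowerSeries.coeff_zero_eq_constantCoeff_apply,
        PowerSeries.coeff_zero_eq_constantCoeff_apply, hs0, mul_zero, zero_add, mul_one,
        PowerSeries.coeff_one, if_neg one_ne_zero] at h2
      exact hr1 h2
    have hw : PowerSeries.C ((ξ⁻¹ : Fˣ) : F) * r⁻¹ = v⁻¹ := by
      have h3 : v * (PowerSeries.C ((ξ⁻¹ : Fˣ) : F) * r⁻¹) = 1 := by
        have h4 : v * (PowerSeries.C ((ξ⁻¹ : Fˣ) : F) * r⁻¹) =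
            (PowerSeries.C (ξ : F) * PowerSeries.C ((ξ⁻¹ : Fˣ) : F)) * (r * r⁻¹) := by
          rw [hv]; ring
        rw [h4, hrr, mul_one, ← map_mul, Units.mul_inv, map_one]
      calc PowerSeries.C ((ξ⁻¹ : Fˣ) : F) * r⁻¹
          = (v⁻¹ * v) * (PowerSeries.C ((ξ⁻¹ : Fˣ) : F) * r⁻¹) := by rw [hwv, one_mul]
        _ = v⁻¹ * (v * (PowerSeries.C ((ξ⁻¹ : Fˣ) : F) * r⁻¹)) := by rw [mul_assoc]
        _ = v⁻¹ := by rw [h3, mul_one]
    apply order_root hP ξ⁻¹ r⁻¹ hs0 hs1 A
    rw [hw, ← lev_eq hp v⁻¹ v hwv]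
    have hl' : lev k ξ r p =
        MvPolynomial.aeval ![(v⁻¹) ^ (k - 1) + v ^ (k - 1), (v⁻¹) ^ k + v ^ k] p := by
      rw [hl, add_comm (v ^ (k - 1)), add_comm (v ^ k)]
    rw [← hl']
    exact hX.mul_left _

/-- the four parameters -/
def rt (k : ℕ) {c : ℕ} (ζ : Fin c → Fˣ) (i : Fin c × Bool × Bool) : Fˣ :=
  if i.2.2 then (if i.2.1 then ζ i.1 else cnj k (ζ i.1)) else
    (if i.2.1 then ζ i.1 else cnj k (ζ i.1))⁻¹

theorem sq_pow {k : ℕ} (hk : 1 ≤ k) {x : Fˣ} (h : x ^ (2 * (k * (k - 1))) = 1) :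
    (x ^ (2 * k - 1)) ^ (2 * k - 1) = x := by
  obtain ⟨j, rfl⟩ : ∃ j, k = j + 1 := ⟨k - 1, by omega⟩
  simp only [Nat.add_sub_cancel] at h
  rw [← pow_mul]
  have e1 : (2 * (j + 1) - 1) * (2 * (j + 1) - 1) = 2 * ((j + 1) * j) * 2 + 1 := by
    have : 2 * (j + 1) - 1 = 2 * j + 1 := by omega
    rw [this]; ring
  rw [e1, pow_succ, pow_mul, h, one_pow, one_mul]

theorem rt_inj {k : ℕ} (hk : 3 ≤ k) {c : ℕ} {ζ : Fin c → Fˣ} (hN : ∀ l, IsNode k (ζ l))
    (hS : ∀ l l', l ≠ l' → Sep k (ζ l) (ζ l')) : Function.Injective (rt k ζ) := by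
  -- the basic facts
  have hsq : ∀ l, (ζ l ^ (2 * k - 1)) ^ (2 * k - 1) = ζ l := fun l => sq_pow (by omega) (hN l).1
  have hcc : ∀ l l', cnj k (ζ l) = cnj k (ζ l') → ζ l = ζ l' := by
    intro l l' h
    unfold cnj at h
    have h1 := inv_injective h
    rw [← hsq l, h1, hsq l']
  have hcc' : ∀ l l', cnj k (ζ l) = (cnj k (ζ l'))⁻¹ → ζ l = (ζ l')⁻¹ := by
    intro l l' h
    unfold cnj at h
    rw [inv_inv] at h
    have h1 : ζ l ^ (2 * k - 1) = (ζ l' ^ (2 * k - 1))⁻¹ := by rw [← h, inv_inv]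
    rw [← hsq l, h1, inv_pow, hsq l']
  have hz : ∀ l, ζ l ≠ (ζ l)⁻¹ := by
    intro l h
    have h1 : ζ l ^ 2 = 1 := by
      rw [pow_two]
      nth_rewrite 2 [h]
      exact mul_inv_cancel _
    apply (hN l).2.1
    rw [pow_mul, h1, one_pow]
  have hzc : ∀ l, ζ l ≠ cnj k (ζ l) := by
    intro l h
    apply (hN l).2.1
    unfold cnj at h
    have h1 : 2 * k = (2 * k - 1) + 1 := by omega
    rw [h1, pow_succ]
    nth_rewrite 2 [h]
    exact mul_inv_cancel _
  have hzc' : ∀ l, ζ l ≠ (cnj k (ζ l))⁻¹ := by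
    intro l h
    apply (hN l).2.2
    unfold cnj at h
    rw [inv_inv] at h
    have h1 : 2 * k - 1 = 2 * (k - 1) + 1 := by omega
    rw [h1, pow_succ] at h
    exact (mul_eq_right.1 h.symm)
  intro i j hij
  obtain ⟨l, b, s⟩ := i
  obtain ⟨l', b', s'⟩ := j
  by_cases hll : l = l'
  · subst hll
    unfold rt at hij
    cases b <;> cases s <;> cases b' <;> cases s' <;> simp only [if_true, if_false,
      Bool.false_eq_true] at hij ⊢
    all_goals first
      | rfl
      | (exfalso; first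
        | exact hz l hij
        | exact hz l hij.symm
        | exact hzc l hij
        | exact hzc l hij.symm
        | exact hzc' l hij
        | exact hzc' l hij.symm
        | exact hzc l (inv_injective hij)
        | exact hzc l (inv_injective hij).symm
        | exact hzc' l (inv_eq_iff_eq_inv.1 hij)
        | exact hzc' l (inv_eq_iff_eq_inv.1 hij.symm)
        | exact hz l (hcc' l l hij)
        | exact hz l (hcc' l l hij.symm))
  · exfalso
    have h1 := hS l l' hll
    have h2 := hS l' l (Ne.symm hll)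
    obtain ⟨a1, a2, a3, a4⟩ := h1
    obtain ⟨b1, b2, b3, b4⟩ := h2
    unfold rt at hij
    cases b <;> cases s <;> cases b' <;> cases s' <;> simp only [if_true, if_false,
      Bool.false_eq_true] at hij
    all_goals first
      | exact a1 hij
      | exact a2 hij
      | exact a3 hij
      | exact a4 hij
      | exact b1 hij.symm
      | exact b2 hij.symm
      | exact b3 hij.symm
      | exact b4 hij.symm
      | exact a1 (inv_injective hij)
      | exact a3 (inv_injective hij)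
      | exact b3 (inv_injective hij).symm
      | exact a2 (inv_eq_iff_eq_inv.1 hij)
      | exact a4 (inv_eq_iff_eq_inv.1 hij)
      | exact b4 (inv_eq_iff_eq_inv.1 hij.symm)
      | exact b4 (inv_eq_iff_eq_inv.2 hij).symm
      | exact a1 (hcc l l' hij)
      | exact a2 (hcc' l l' hij)
      | exact a1 (hcc l l' (inv_injective hij))
      | exact a2 (hcc' l l' (inv_eq_iff_eq_inv.1 hij))

theorem t : Pool.Agent.Helper1.T1.S_CNTZ := by
  intro F _ k e c ζ r r' A B p hk hN hS hr hr' hp hp0 hA hB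
  set P : Polynomial F := PP k e p with hPdef
  have hP0 : P ≠ 0 := PP_ne_zero (by omega) hp hp0
  have hPd : P.natDegree ≤ 2 * (k * e) := natDegree_PP hp
  -- the multiplicities
  set M : Fin c × Bool × Bool → ℕ := fun i => if i.2.1 then A i.1 else B i.1 with hM
  have hdvd : ∀ i : Fin c × Bool × Bool,
      (Polynomial.X - Polynomial.C ((rt k ζ i : Fˣ) : F)) ^ (M i) ∣ P := by
    rintro ⟨l, b, s⟩
    have h1 := root_of_lev (k := k) (e := e) (by omega) hp hp0 (ζ l) (r l) (hr l).1 (hr l).2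
      (A l) (hA l)
    have h2 := root_of_lev (k := k) (e := e) (by omega) hp hp0 (cnj k (ζ l)) (r' l) (hr' l).1
      (hr' l).2 (B l) (hB l)
    cases b <;> cases s
    · exact h2.2
    · exact h2.1
    · exact h1.2
    · exact h1.1
  have hprod : ∏ i : Fin c × Bool × Bool,
      (Polynomial.X - Polynomial.C ((rt k ζ i : Fˣ) : F)) ^ (M i) ∣ P := by
    apply Finset.prod_dvd_of_coprime
    · intro i _ j _ hij
      apply IsCoprime.pow
      apply Polynomial.isCoprime_X_sub_C_of_isUnit_sub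
      rw [isUnit_iff_ne_zero, sub_ne_zero]
      intro h
      exact hij (rt_inj hk hN hS (Units.ext h))
    · intro i _
      exact hdvd i
  have hdeg := Polynomial.natDegree_le_of_dvd hprod hP0
  rw [Polynomial.natDegree_prod_of_monic _ _
    (fun i _ => (Polynomial.monic_X_sub_C _).pow _)] at hdeg
  have hsum : ∑ i : Fin c × Bool × Bool,
      ((Polynomial.X - Polynomial.C ((rt k ζ i : Fˣ) : F)) ^ (M i)).natDegree =
      2 * ∑ l, (A l + B l) := by
    have h1 : ∀ i : Fin c × Bool × Bool,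
        ((Polynomial.X - Polynomial.C ((rt k ζ i : Fˣ) : F)) ^ (M i)).natDegree = M i := by
      intro i
      rw [Polynomial.natDegree_pow, Polynomial.natDegree_X_sub_C, mul_one]
    rw [Finset.sum_congr rfl (fun i _ => h1 i), Fintype.sum_prod_type]
    rw [Finset.mul_sum]
    apply Finset.sum_congr rfl
    intro l _
    rw [Fintype.sum_prod_type]
    simp only [Fintype.sum_bool, if_true, Bool.false_eq_true, if_false]
    ring
  rw [hsum] at hdeg
  omega

end Pool.Agent.Helper15.T1.CNTZ
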